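import Pool.Agent.Q312.Mak.Omit

/-!
# MP_3f42a7_lc: the acceptable formulae have the omissibility property

The truth-trees with parity are defined in `Pool/Agent/Q312/Mak/Basic.lean`.
-/

namespace Pool.Agent.Results.MP_3f42a7_lc.Omissibility

open Pool.Agent.Q312.Mak

/-- **Theorem.** If `β` shares no sentence letter with `α` or with `γ`, and `(α ∧ β) → γ` or
`α → (β ∨ γ)` is acceptable, then `α → γ` is acceptable. -/
theorem result (α β γ : Form) (hα : ∀ p ∈ β.letters, p ∉ α.letters)
    (hγ : ∀ p ∈ β.letters, p ∉ γ.letters)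
    (h : Acceptable (.imp (.and α β) γ) ∨ Acceptable (.imp α (.or β γ))) :
    Acceptable (.imp α γ) :=
  omit_ac α β γ (Set.disjoint_left.mpr fun p hp => hα p hp)
    (Set.disjoint_left.mpr fun p hp => hγ p hp) h

end Pool.Agent.Results.MP_3f42a7_lc.Omissibility
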